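import Pool.Agent.N646.BX.All

/-!
Bohr sets (helper694): if the good vectors have almost cliques, then almost all vectors in a Bohr set are
good, together with their images under integer matrices. The theorem on returns is
`Pool.Agent.N646.AC.returnsZ` of helper646.
-/

set_option autoImplicit false

namespace Pool.Agent.N694.BR

open Finset Filter Topology
open Pool.Agent.N646.AC
open Pool.Agent.N646.BX

open Classical in
theorem bohr (k s : ℕ) (ε : ℝ) (hε : 0 < ε) : ∃ (d : ℕ) (ρ δ ε' : ℝ), 0 < ρ ∧ 0 < δ ∧ 0 < ε' ∧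
    ∀ g : (Fin k → ℤ) → Prop, CLe k g (5 / 18) ε' → ∃ M n₀ : ℕ, 1 ≤ M ∧ ∀ N : ℕ, 1 ≤ N → M ∣ N →
      ∀ H : ℕ, n₀ ≤ H → ∃ (Θ : Finset ℝ) (r : ℝ), Θ.card ≤ d ∧ ρ ≤ r ∧ r ≤ 1 ∧
      δ * H ≤ (Bz Θ r H).card ∧ ∃ 𝒢 ⊆ Fintype.piFinset (fun _ : Fin k => Bz Θ r H),
        (((Fintype.piFinset (fun _ : Fin k => Bz Θ r H)) \ 𝒢).card : ℝ) ≤
          ε * ((Bz Θ r H).card : ℝ) ^ k ∧
        ∀ y ∈ 𝒢, ∀ T : Matrix (Fin k) (Fin k) ℤ, (∀ i j, |T i j| ≤ s) → T.det ≠ 0 →
          Function.Injective (nv (T.mulVec y)) ∧ g (fun i => N * (T.mulVec y) i) := by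
  obtain ⟨d, H₀, ρ, δ, ε₀, hρ, hδ, hε₀, hret⟩ := returnsZ k s (1 / 5) (by norm_num) ε hε
  refine ⟨d, ρ, δ, min ε₀ (1 / 100), hρ, hδ, by positivity, ?_⟩
  rintro g ⟨M₀, n₀, hM₀, hcl⟩
  refine ⟨M₀, max (max H₀ n₀) 1, hM₀, fun N hN hMN H hH => ?_⟩
  have hHH₀ : H₀ ≤ H := (le_max_left _ _).trans ((le_max_left _ _).trans hH)
  have hHn₀ : n₀ ≤ H := (le_max_right _ _).trans ((le_max_left _ _).trans hH)
  have hH1 : 1 ≤ H := (le_max_right _ _).trans hH
  have hHr : (0 : ℝ) < H := by exact_mod_cast hH1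
  have hNZ : (N : ℤ) ≠ 0 := by exact_mod_cast (by omega : N ≠ 0)
  have hinj : Function.Injective (fun x : ℤ => (N : ℤ) * x) := mul_right_injective₀ hNZ
  set V : Finset ℤ := (Ico 0 (H : ℤ)).image (fun x => (N : ℤ) * x) with hV
  have hVc : V.card = H := by
    rw [hV, card_image_of_injective _ hinj, Int.card_Ico]
    omega
  obtain ⟨A₀, hA₀V, hA₀c, hA₀e⟩ := hcl V (by
    intro x hx
    obtain ⟨y, _, rfl⟩ := mem_image.1 hx
    exact Dvd.dvd.mul_right (Int.natCast_dvd_natCast.2 hMN) y) (by rw [hVc]; exact hHn₀)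
  set A : Finset ℤ := (Ico 0 (H : ℤ)).filter (fun x => (N : ℤ) * x ∈ A₀) with hA
  have hAA : A.image (fun x => (N : ℤ) * x) = A₀ := by
    ext f
    rw [mem_image]
    constructor
    · rintro ⟨x, hx, rfl⟩
      exact (mem_filter.1 hx).2
    · intro hf
      obtain ⟨x, hx, rfl⟩ := mem_image.1 (hA₀V hf)
      exact ⟨x, mem_filter.2 ⟨hx, hf⟩, rfl⟩
  have hAc : A.card = A₀.card := by
    rw [← hAA, card_image_of_injective _ hinj]
  have hmin : min ε₀ (1 / 100) ≤ 1 / 100 := min_le_right _ _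
  obtain ⟨Θ, r, h1, h2, h3, h4, h5⟩ := hret H hHH₀ A (filter_subset _ _) (by
    rw [hAc]
    refine le_trans ?_ hA₀c
    rw [hVc]
    nlinarith)
  have h6 := h5 (fun t => g (fun j => N * t j.succ)) (by
    have h7 : ((Fintype.piFinset (fun _ : Fin (k + 1) => A)).filter (fun t => Function.Injective t ∧
        ¬ (fun t : Fin (k + 1) → ℤ => g (fun j => N * t j.succ)) (fun i => t i - t 0))).card ≤
        Set.ncard {y : Fin (k + 1) → ℤ | (∀ i, y i ∈ A₀) ∧ Function.Injective y ∧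
          ¬ g (fun j => y j.succ - y 0)} := by
      have hfin : {y : Fin (k + 1) → ℤ | (∀ i, y i ∈ A₀) ∧ Function.Injective y ∧
          ¬ g (fun j => y j.succ - y 0)}.Finite := by
        apply (Fintype.piFinset (fun _ : Fin (k + 1) => A₀)).finite_toSet.subset
        intro y hy
        rw [mem_coe, Fintype.mem_piFinset]
        exact hy.1
      rw [← Set.ncard_coe_finset]
      refine Set.ncard_le_ncard_of_injOn (fun t => fun i => (N : ℤ) * t i) ?_ ?_ hfin
      · intro t ht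
        rw [mem_coe, mem_filter, Fintype.mem_piFinset] at ht
        obtain ⟨g1, g2, g3⟩ := ht
        refine ⟨fun i => (mem_filter.1 (g1 i)).2, hinj.comp g2, fun hg => g3 ?_⟩
        have e : (fun j : Fin k => (N : ℤ) * (t j.succ - t 0)) =
            fun j : Fin k => (N : ℤ) * t j.succ - (N : ℤ) * t 0 := by
          funext j; ring
        show g (fun j => (N : ℤ) * (t j.succ - t 0))
        rw [e]
        exact hg
      · intro t _ t' _ h
        funext i
        exact hinj (congrFun h i)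
    calc _ ≤ (Set.ncard {y : Fin (k + 1) → ℤ | (∀ i, y i ∈ A₀) ∧ Function.Injective y ∧
          ¬ g (fun j => y j.succ - y 0)} : ℝ) := by exact_mod_cast h7
      _ ≤ min ε₀ (1 / 100) * (V.card : ℝ) ^ (k + 1) := hA₀e
      _ ≤ ε₀ * (H : ℝ) ^ (k + 1) := by
          rw [hVc]
          have := min_le_left ε₀ (1 / 100)
          gcongr)
  refine ⟨Θ, r, h1, h2, h3, h4, (Fintype.piFinset (fun _ : Fin k => Bz Θ r H)).filter (fun y =>
        ∀ T ∈ Mats k s, T.det ≠ 0 → Function.Injective (nv (T.mulVec y)) ∧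
          g (fun j => N * nv (T.mulVec y) j.succ)), filter_subset _ _, ?_, ?_⟩
  · refine le_trans ?_ h6
    rw [Nat.cast_le]
    apply card_le_card
    intro y hy
    rw [Finset.mem_sdiff, mem_filter] at hy
    rw [mem_filter]
    exact ⟨hy.1, fun hc => hy.2 ⟨hy.1, hc⟩⟩
  · intro y hy T hT hdet
    have h8 := (mem_filter.1 hy).2 T (mem_Mats.2 hT) hdet
    refine ⟨h8.1, ?_⟩
    have h9 := h8.2
    have e : (fun j : Fin k => (N : ℤ) * nv (T.mulVec y) j.succ) = fun i => (N : ℤ) * (T.mulVec y) i := by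
      funext j
      unfold nv
      rw [Fin.cons_succ]
    rw [e] at h9
    exact h9

end Pool.Agent.N694.BR
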